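import Mathlib

/-!
# MP_640be2_al : products of two nilpotent groups of unbounded derived length

Let `R` be a finite commutative ring of characteristic two and let `G` be the group of all
`g` in `SL_3(R)` with `g⁻¹ = gᵀ` and `g i j ^ 2 = δ i j`. It is a finite `2`-group. Let `A` be the
subgroup of diagonal matrices in `G` (abelian) and `B` the stabiliser of the vector `(1,1,1)` in `G`
(nilpotent of class at most two). Then `G = A B`: if `s` is the vector of the row sums of `g` then
`diag(s)` lies in `A` and `diag(s) g` lies in `B`. The elements `1 + r (E i j + E j i)` (with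
`r ^ 2 = 0`) show that the derived length of `G` is large if there are many square zero elements with
nonzero product.
-/

set_option autoImplicit false
set_option linter.unusedSimpArgs false
set_option linter.unusedSectionVars false
set_option linter.unusedVariables false

namespace Pool.Agent.Results.MP_640be2_al.UnboundedDerivedLength

open Matrix

section Construction

variable {R : Type} [CommRing R]

lemma mul_entry (x y : SpecialLinearGroup (Fin 3) R) (i j : Fin 3) :
    (x * y).1 i j = x.1 i 0 * y.1 0 j + x.1 i 1 * y.1 1 j + x.1 i 2 * y.1 2 j := by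
  have h : (x * y).1 = x.1 * y.1 := rfl
  rw [h, Matrix.mul_apply, Fin.sum_univ_three]

/-- The group `G`. -/
def GG (R : Type) [CommRing R] (h2 : (2 : R) = 0) : Subgroup (SpecialLinearGroup (Fin 3) R) where
  carrier := {g | (∀ i j, (g⁻¹).1 i j = g.1 j i) ∧ ∀ i j, (g.1 i j) ^ 2 = if i = j then 1 else 0}
  mul_mem' := by
    rintro x y ⟨hx1, hx2⟩ ⟨hy1, hy2⟩
    refine ⟨fun i j => ?_, fun i j => ?_⟩
    · rw [_root_.mul_inv_rev, mul_entry, mul_entry]
      simp only [hx1, hy1]
      ring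
    · rw [mul_entry]
      have h : (x.1 i 0 * y.1 0 j + x.1 i 1 * y.1 1 j + x.1 i 2 * y.1 2 j) ^ 2 =
          (x.1 i 0) ^ 2 * (y.1 0 j) ^ 2 + (x.1 i 1) ^ 2 * (y.1 1 j) ^ 2 +
            (x.1 i 2) ^ 2 * (y.1 2 j) ^ 2 := by
        linear_combination (x.1 i 0 * y.1 0 j * (x.1 i 1 * y.1 1 j) +
          x.1 i 0 * y.1 0 j * (x.1 i 2 * y.1 2 j) + x.1 i 1 * y.1 1 j * (x.1 i 2 * y.1 2 j)) * h2
      rw [h]
      simp only [hx2, hy2]
      fin_cases i <;> fin_cases j <;> simp
  one_mem' := by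
    refine ⟨fun i j => ?_, fun i j => ?_⟩
    · rw [inv_one]
      show (1 : Matrix (Fin 3) (Fin 3) R) i j = (1 : Matrix (Fin 3) (Fin 3) R) j i
      rw [Matrix.one_apply, Matrix.one_apply]
      simp only [eq_comm]
    · show ((1 : Matrix (Fin 3) (Fin 3) R) i j) ^ 2 = _
      rw [Matrix.one_apply]
      split_ifs <;> simp
  inv_mem' := by
    rintro x ⟨hx1, hx2⟩
    refine ⟨fun i j => ?_, fun i j => ?_⟩
    · rw [inv_inv, hx1]
    · rw [hx1, hx2]
      simp only [eq_comm]

variable {h2 : (2 : R) = 0}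

/-- The entries of an element of `G`. -/
def e (x : GG R h2) (i j : Fin 3) : R := x.1.1 i j

lemma e_ext {x y : GG R h2} (h : ∀ i j, e x i j = e y i j) : x = y :=
  Subtype.ext (Subtype.ext (Matrix.ext h))

lemma e_mul (x y : GG R h2) (i j : Fin 3) :
    e (x * y) i j = e x i 0 * e y 0 j + e x i 1 * e y 1 j + e x i 2 * e y 2 j :=
  mul_entry x.1 y.1 i j

lemma e_inv (x : GG R h2) (i j : Fin 3) : e x⁻¹ i j = e x j i := x.2.1 i j

lemma e_one (i j : Fin 3) : e (1 : GG R h2) i j = if i = j then 1 else 0 := Matrix.one_apply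

lemma e_sq (x : GG R h2) (i j : Fin 3) : e x i j ^ 2 = if i = j then 1 else 0 := x.2.2 i j

lemma rows_orth (x : GG R h2) (i j : Fin 3) :
    e x i 0 * e x j 0 + e x i 1 * e x j 1 + e x i 2 * e x j 2 = if i = j then 1 else 0 := by
  have h : e (x * x⁻¹) i j = e (1 : GG R h2) i j := by rw [mul_inv_cancel]
  rw [e_mul, e_one] at h
  simpa only [e_inv] using h

lemma adj_entry (x : GG R h2) (i j : Fin 3) : x.1.1.adjugate i j = e x j i := by
  have h3 : (x.1⁻¹).1 = x.1.1.adjugate := Matrix.SpecialLinearGroup.coe_inv x.1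
  rw [← h3]
  exact x.2.1 i j

lemma cof20 (x : GG R h2) : e x 2 0 = e x 0 1 * e x 1 2 - e x 0 2 * e x 1 1 := by
  have h := adj_entry x 0 2
  rw [Matrix.adjugate_fin_three] at h
  exact h.symm

lemma cof21 (x : GG R h2) : e x 2 1 = -(e x 0 0 * e x 1 2) + e x 0 2 * e x 1 0 := by
  have h := adj_entry x 1 2
  rw [Matrix.adjugate_fin_three] at h
  exact h.symm

lemma cof22 (x : GG R h2) : e x 2 2 = e x 0 0 * e x 1 1 - e x 0 1 * e x 1 0 := by
  have h := adj_entry x 2 2
  rw [Matrix.adjugate_fin_three] at h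
  exact h.symm

/-- A matrix of determinant one as an element of the special linear group. -/
def mkSL (M : Matrix (Fin 3) (Fin 3) R) (hdet : M.det = 1) : SpecialLinearGroup (Fin 3) R :=
  ⟨M, hdet⟩

/-- Symmetric involutive matrices of determinant one with the right squares lie in `G`. -/
def mk (h2 : (2 : R) = 0) (M : Matrix (Fin 3) (Fin 3) R) (hdet : M.det = 1) (hM : M * M = 1)
    (hsym : ∀ i j, M i j = M j i) (hsq : ∀ i j, (M i j) ^ 2 = if i = j then 1 else 0) : GG R h2 :=
  ⟨mkSL M hdet, by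
    refine ⟨fun i j => ?_, hsq⟩
    have h : (mkSL M hdet)⁻¹ = mkSL M hdet := by
      refine inv_eq_of_mul_eq_one_right (Subtype.ext ?_)
      show M * M = 1
      exact hM
    rw [h]
    exact hsym i j⟩

lemma e_mk (M : Matrix (Fin 3) (Fin 3) R) (hdet : M.det = 1) (hM : M * M = 1)
    (hsym : ∀ i j, M i j = M j i) (hsq : ∀ i j, (M i j) ^ 2 = if i = j then 1 else 0)
    (i j : Fin 3) : e (mk h2 M hdet hM hsym hsq) i j = M i j := rfl

/-- Row sums. -/
def rs (x : GG R h2) (i : Fin 3) : R := e x i 0 + e x i 1 + e x i 2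

lemma rs_mul (x y : GG R h2) (i : Fin 3) :
    rs (x * y) i = e x i 0 * rs y 0 + e x i 1 * rs y 1 + e x i 2 * rs y 2 := by
  unfold rs
  simp only [e_mul]
  ring

lemma rs_sq (x : GG R h2) (i : Fin 3) : rs x i ^ 2 = 1 := by
  have h : rs x i ^ 2 = e x i 0 ^ 2 + e x i 1 ^ 2 + e x i 2 ^ 2 := by
    unfold rs
    linear_combination (e x i 0 * e x i 1 + e x i 0 * e x i 2 + e x i 1 * e x i 2) * h2
  rw [h, e_sq, e_sq, e_sq]
  fin_cases i <;> simp

lemma rs_prod (x : GG R h2) : rs x 2 = rs x 0 * rs x 1 := by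
  have h := rows_orth x 0 1
  simp only [zero_ne_one, if_false, Fin.isValue] at h
  unfold rs
  rw [cof20, cof21, cof22]
  linear_combination (-1 : R) * h - (e x 0 0 * e x 1 2 + e x 0 1 * e x 1 0 + e x 0 2 * e x 1 1) * h2

/-- The subgroup `A` of diagonal matrices. -/
def AA (R : Type) [CommRing R] (h2 : (2 : R) = 0) : Subgroup (GG R h2) where
  carrier := {g | ∀ i j, i ≠ j → e g i j = 0}
  mul_mem' := by
    intro x y hx hy i j hij
    rw [e_mul]
    fin_cases i <;> fin_cases j <;> simp_all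
  one_mem' := by
    intro i j hij
    rw [e_one, if_neg hij]
  inv_mem' := by
    intro x hx i j hij
    rw [e_inv]
    exact hx j i hij.symm

/-- The subgroup `B`: the stabiliser of the vector `(1,1,1)`. -/
def BB (R : Type) [CommRing R] (h2 : (2 : R) = 0) : Subgroup (GG R h2) where
  carrier := {g | ∀ i, rs g i = 1}
  mul_mem' := by
    intro x y hx hy i
    rw [rs_mul, hy 0, hy 1, hy 2]
    have := hx i
    unfold rs at this
    simpa using this
  one_mem' := by
    intro i
    unfold rs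
    simp only [e_one]
    fin_cases i <;> simp
  inv_mem' := by
    intro x hx i
    have h : rs (x⁻¹ * x) i = 1 := by
      rw [inv_mul_cancel]
      unfold rs
      simp only [e_one]
      fin_cases i <;> simp
    rw [rs_mul, hx 0, hx 1, hx 2] at h
    unfold rs
    simpa using h

lemma mem_AA (g : GG R h2) : g ∈ AA R h2 ↔ ∀ i j, i ≠ j → e g i j = 0 := Iff.rfl

lemma mem_BB (g : GG R h2) : g ∈ BB R h2 ↔ ∀ i, rs g i = 1 := Iff.rfl

/-- Diagonal elements. -/
def dg (h2 : (2 : R) = 0) (s : Fin 3 → R) (hs : ∀ i, s i ^ 2 = 1) (h : s 2 = s 0 * s 1) : GG R h2 :=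
  mk h2 (Matrix.diagonal s)
    (by
      rw [Matrix.det_diagonal, Fin.prod_univ_three, h]
      linear_combination (s 1 ^ 2) * hs 0 + hs 1)
    (by
      rw [Matrix.diagonal_mul_diagonal]
      have : (fun i => s i * s i) = fun _ => 1 := by
        funext i
        rw [← pow_two, hs]
      rw [this]
      exact Matrix.diagonal_one)
    (by
      intro i j
      by_cases hij : i = j
      · rw [hij]
      · rw [Matrix.diagonal_apply_ne _ hij, Matrix.diagonal_apply_ne _ (Ne.symm hij)])
    (by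
      intro i j
      by_cases hij : i = j
      · rw [hij, Matrix.diagonal_apply_eq, hs, if_pos rfl]
      · rw [Matrix.diagonal_apply_ne _ hij, if_neg hij, zero_pow two_ne_zero])

lemma e_dg (s : Fin 3 → R) (hs : ∀ i, s i ^ 2 = 1) (h : s 2 = s 0 * s 1) (i j : Fin 3) :
    e (dg h2 s hs h) i j = if i = j then s i else 0 := by
  show Matrix.diagonal s i j = _
  rw [Matrix.diagonal_apply]

lemma dg_mem (s : Fin 3 → R) (hs : ∀ i, s i ^ 2 = 1) (h : s 2 = s 0 * s 1) :
    dg h2 s hs h ∈ AA R h2 := by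
  intro i j hij
  rw [e_dg, if_neg hij]

/-- `G = A B`. -/
lemma factorised (g : GG R h2) : ∃ a ∈ AA R h2, ∃ b ∈ BB R h2, g = a * b := by
  refine ⟨dg h2 (rs g) (rs_sq g) (rs_prod g), dg_mem _ _ _,
    (dg h2 (rs g) (rs_sq g) (rs_prod g))⁻¹ * g, ?_, by rw [mul_inv_cancel_left]⟩
  intro i
  rw [rs_mul]
  simp only [e_inv, e_dg]
  have h := rs_sq g i
  fin_cases i <;> simp_all [pow_two]

/-- `A` is abelian. -/
lemma AA_comm : IsMulCommutative (AA R h2) := by
  refine ⟨⟨fun x y => Subtype.ext (e_ext fun i j => ?_)⟩⟩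
  obtain ⟨x, hx⟩ := x
  obtain ⟨y, hy⟩ := y
  show e (x * y) i j = e (y * x) i j
  rw [mem_AA] at hx hy
  rw [e_mul, e_mul]
  fin_cases i <;> fin_cases j <;> simp [hx, hy, mul_comm]

lemma AA_nilpotent : Group.IsNilpotent (AA R h2) := by
  refine ⟨1, ?_⟩
  rw [Subgroup.upperCentralSeries_one]
  exact Subgroup.center_eq_top_iff.mpr AA_comm

/-- If there is a nonzero square zero element then `A` has class exactly one. -/
lemma AA_class (r : R) (hr : r ^ 2 = 0) (hr0 : r ≠ 0) : Group.nilpotencyClass (AA R h2) = 1 := by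
  have hn : Group.IsNilpotent (AA R h2) := AA_nilpotent
  refine le_antisymm (Group.IsNilpotent.nilpotencyClass_le_one_iff.mpr AA_comm) ?_
  by_contra hlt
  have h0 : Group.nilpotencyClass (AA R h2) = 0 := by omega
  rw [Group.nilpotencyClass_zero_iff_subsingleton] at h0
  have hs : ∀ i : Fin 3, (![1 + r, 1, 1 + r] : Fin 3 → R) i ^ 2 = 1 := by
    intro i
    fin_cases i
    · show (1 + r) ^ 2 = 1
      linear_combination r * h2 + hr
    · show (1 : R) ^ 2 = 1
      ring
    · show (1 + r) ^ 2 = 1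
      linear_combination r * h2 + hr
  have hp : (![1 + r, 1, 1 + r] : Fin 3 → R) 2 = (![1 + r, 1, 1 + r] : Fin 3 → R) 0 *
      (![1 + r, 1, 1 + r] : Fin 3 → R) 1 := by
    show 1 + r = (1 + r) * 1
    ring
  have h1 : (⟨dg h2 _ hs hp, dg_mem _ _ _⟩ : AA R h2) = 1 := Subsingleton.elim _ _
  have h3 : e (dg h2 _ hs hp) 0 0 = e (1 : GG R h2) 0 0 := by
    rw [show dg h2 _ hs hp = 1 from congrArg Subtype.val h1]
  rw [e_dg, e_one] at h3
  have h4 : 1 + r = 1 := by simpa using h3
  exact hr0 (by linear_combination h4)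

/-! ### The class of `B` -/

lemma col_sum {x : GG R h2} (hx : x ∈ BB R h2) (j : Fin 3) : e x 0 j + e x 1 j + e x 2 j = 1 := by
  have h := (BB R h2).inv_mem hx j
  unfold rs at h
  simpa only [e_inv] using h

lemma row_sum {x : GG R h2} (hx : x ∈ BB R h2) (i : Fin 3) : e x i 0 + e x i 1 + e x i 2 = 1 := hx i

lemma blk_a {x y : GG R h2} (hx : x ∈ BB R h2) (hy : y ∈ BB R h2) :
    1 + e (x * y) 1 0 = (1 + e x 1 0) * (1 + e y 1 0) + (1 + e x 1 1) * (1 + e y 0 0) := by
  rw [e_mul]
  have h1 := row_sum hx 1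
  have h3 := col_sum hy 0
  linear_combination e y 2 0 * h1 + (1 - e x 1 0 - e x 1 1) * h3 -
    (e y 1 0 + e y 0 0 + e x 1 0 + e x 1 1) * h2 + (e x 1 0 * e y 0 0 + e x 1 1 * e y 1 0) * h2

lemma blk_b {x y : GG R h2} (hx : x ∈ BB R h2) (hy : y ∈ BB R h2) :
    1 + e (x * y) 1 1 = (1 + e x 1 0) * (1 + e y 1 1) + (1 + e x 1 1) * (1 + e y 0 1) := by
  rw [e_mul]
  have h1 := row_sum hx 1
  have h3 := col_sum hy 1
  linear_combination e y 2 1 * h1 + (1 - e x 1 0 - e x 1 1) * h3 -
    (e y 1 1 + e y 0 1 + e x 1 0 + e x 1 1) * h2 + (e x 1 0 * e y 0 1 + e x 1 1 * e y 1 1) * h2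

lemma blk_c {x y : GG R h2} (hx : x ∈ BB R h2) (hy : y ∈ BB R h2) :
    1 + e (x * y) 0 0 = (1 + e x 0 0) * (1 + e y 1 0) + (1 + e x 0 1) * (1 + e y 0 0) := by
  rw [e_mul]
  have h1 := row_sum hx 0
  have h3 := col_sum hy 0
  linear_combination e y 2 0 * h1 + (1 - e x 0 0 - e x 0 1) * h3 -
    (e y 1 0 + e y 0 0 + e x 0 0 + e x 0 1) * h2 + (e x 0 0 * e y 0 0 + e x 0 1 * e y 1 0) * h2

lemma blk_det {x : GG R h2} (hx : x ∈ BB R h2) :
    (1 + e x 1 0) * (1 + e x 0 1) + (1 + e x 1 1) * (1 + e x 0 0) = 1 := by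
  have h0 := row_sum hx 0
  have h1 := row_sum hx 1
  have h3 := col_sum hx 2
  have h4 := cof22 x
  linear_combination h0 + h1 - h3 + (e x 1 1 * e x 0 0 + 1) * h2 + h4

lemma sq_off (x : GG R h2) (i j : Fin 3) (hij : i ≠ j) : (1 + e x i j) ^ 2 = 1 := by
  have h := e_sq x i j
  rw [if_neg hij] at h
  linear_combination h + e x i j * h2

lemma sq_on (x : GG R h2) (i : Fin 3) : (1 + e x i i) ^ 2 = 0 := by
  have h := e_sq x i i
  rw [if_pos rfl] at h
  linear_combination h + (e x i i + 1) * h2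

/-- The homomorphism from `B` to an elementary abelian group with central kernel. -/
def psi (R : Type) [CommRing R] (h2 : (2 : R) = 0) : BB R h2 →* Multiplicative (R × R) where
  toFun x := Multiplicative.ofAdd ((1 + e x.1 1 0) * (1 + e x.1 1 1), (1 + e x.1 1 0) * (1 + e x.1 0 0))
  map_one' := by
    show Multiplicative.ofAdd ((1 + e (1 : GG R h2) 1 0) * (1 + e (1 : GG R h2) 1 1),
      (1 + e (1 : GG R h2) 1 0) * (1 + e (1 : GG R h2) 0 0)) = Multiplicative.ofAdd 0
    congr 1
    simp only [e_one]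
    refine Prod.ext ?_ ?_
    · simp [one_add_one_eq_two, h2]
    · simp [one_add_one_eq_two, h2]
  map_mul' := by
    rintro ⟨x, hx⟩ ⟨y, hy⟩
    show Multiplicative.ofAdd ((1 + e (x * y) 1 0) * (1 + e (x * y) 1 1),
      (1 + e (x * y) 1 0) * (1 + e (x * y) 0 0)) = Multiplicative.ofAdd
        ((((1 + e x 1 0) * (1 + e x 1 1), (1 + e x 1 0) * (1 + e x 0 0)) : R × R) +
        ((1 + e y 1 0) * (1 + e y 1 1), (1 + e y 1 0) * (1 + e y 0 0)))
    congr 1
    refine Prod.ext ?_ ?_
    · show (1 + e (x * y) 1 0) * (1 + e (x * y) 1 1) =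
        (1 + e x 1 0) * (1 + e x 1 1) + (1 + e y 1 0) * (1 + e y 1 1)
      rw [blk_a hx hy, blk_b hx hy]
      have ha := sq_off x 1 0 (by decide)
      have hb := sq_on x 1
      have hd := blk_det hy
      linear_combination (1 + e y 1 0) * (1 + e y 1 1) * ha +
        (1 + e x 1 0) * (1 + e x 1 1) * hd + (1 + e y 0 0) * (1 + e y 0 1) * hb
    · show (1 + e (x * y) 1 0) * (1 + e (x * y) 0 0) =
        (1 + e x 1 0) * (1 + e x 0 0) + (1 + e y 1 0) * (1 + e y 0 0)
      rw [blk_a hx hy, blk_c hx hy]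
      have hp := sq_off y 1 0 (by decide)
      have hr := sq_on y 0
      have hd := blk_det hx
      linear_combination (1 + e x 1 0) * (1 + e x 0 0) * hp +
        (1 + e y 1 0) * (1 + e y 0 0) * hd + (1 + e x 1 1) * (1 + e x 0 1) * hr

lemma psi_apply (x : BB R h2) : psi R h2 x =
    Multiplicative.ofAdd ((1 + e x.1 1 0) * (1 + e x.1 1 1), (1 + e x.1 1 0) * (1 + e x.1 0 0)) := rfl

lemma ker_entries {x : GG R h2} (hx : x ∈ BB R h2) (hk : psi R h2 ⟨x, hx⟩ = 1) (i j : Fin 3) :
    e x i j = if i = j then 1 else e x 1 0 := by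
  rw [psi_apply] at hk
  have hk' : (((1 + e x 1 0) * (1 + e x 1 1), (1 + e x 1 0) * (1 + e x 0 0)) : R × R) = 0 := hk
  have k1 : (1 + e x 1 0) * (1 + e x 1 1) = 0 := congrArg Prod.fst hk'
  have k2 : (1 + e x 1 0) * (1 + e x 0 0) = 0 := congrArg Prod.snd hk'
  have ha := sq_off x 1 0 (by decide)
  have hd := blk_det hx
  have h11 : e x 1 1 = 1 := by
    linear_combination (1 + e x 1 0) * k1 - (1 + e x 1 1) * ha - h2
  have h00 : e x 0 0 = 1 := by
    linear_combination (1 + e x 1 0) * k2 - (1 + e x 0 0) * ha - h2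
  have h01 : e x 0 1 = e x 1 0 := by
    linear_combination (1 + e x 1 0) * hd - (1 + e x 0 1) * ha - (1 + e x 0 0) * k1
  have r0 := row_sum hx 0
  have r1 := row_sum hx 1
  have c0 := col_sum hx 0
  have c1 := col_sum hx 1
  have h02 : e x 0 2 = e x 1 0 := by linear_combination r0 - h00 - h01 - e x 1 0 * h2
  have h12 : e x 1 2 = e x 1 0 := by linear_combination r1 - h11 - e x 1 0 * h2
  have h20 : e x 2 0 = e x 1 0 := by linear_combination c0 - h00 - e x 1 0 * h2
  have h21 : e x 2 1 = e x 1 0 := by linear_combination c1 - h01 - h11 - e x 1 0 * h2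
  have c2 := col_sum hx 2
  have h22 : e x 2 2 = 1 := by linear_combination c2 - h02 - h12 - e x 1 0 * h2
  fin_cases i <;> fin_cases j <;> simp [h00, h01, h02, h11, h12, h20, h21, h22]

lemma ker_central : (psi R h2).ker ≤ Subgroup.center (BB R h2) := by
  rintro ⟨x, hx⟩ hk
  have hk' : psi R h2 ⟨x, hx⟩ = 1 := hk
  have hE := ker_entries hx hk'
  rw [Subgroup.mem_center_iff]
  rintro ⟨y, hy⟩
  refine Subtype.ext (e_ext fun i j => ?_)
  show e (y * x) i j = e (x * y) i j
  have h1 : e (x * y) i j = e y i j + e x 1 0 * (1 - e y i j) := by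
    rw [e_mul]
    have c := col_sum hy j
    rw [hE i 0, hE i 1, hE i 2]
    fin_cases i
    · simp only [Fin.zero_eta, Fin.mk_one, Fin.reduceFinMk, Fin.isValue, if_true, zero_ne_one, if_false,
        Fin.reduceEq]
      linear_combination e x 1 0 * c
    · simp only [Fin.zero_eta, Fin.mk_one, Fin.reduceFinMk, Fin.isValue, if_true, zero_ne_one, if_false,
        Fin.reduceEq, one_ne_zero]
      linear_combination e x 1 0 * c
    · simp only [Fin.zero_eta, Fin.mk_one, Fin.reduceFinMk, Fin.isValue, if_true, zero_ne_one, if_false,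
        Fin.reduceEq]
      linear_combination e x 1 0 * c
  have h3 : e (y * x) i j = e y i j + e x 1 0 * (1 - e y i j) := by
    rw [e_mul]
    have c := row_sum hy i
    rw [hE 0 j, hE 1 j, hE 2 j]
    fin_cases j
    · simp only [Fin.zero_eta, Fin.mk_one, Fin.reduceFinMk, Fin.isValue, if_true, zero_ne_one, if_false,
        Fin.reduceEq, one_ne_zero]
      linear_combination e x 1 0 * c
    · simp only [Fin.zero_eta, Fin.mk_one, Fin.reduceFinMk, Fin.isValue, if_true, zero_ne_one, if_false,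
        Fin.reduceEq, one_ne_zero]
      linear_combination e x 1 0 * c
    · simp only [Fin.zero_eta, Fin.mk_one, Fin.reduceFinMk, Fin.isValue, if_true, zero_ne_one, if_false,
        Fin.reduceEq, one_ne_zero]
      linear_combination e x 1 0 * c
  rw [h1, h3]

lemma BB_nilpotent : Group.IsNilpotent (BB R h2) :=
  Subgroup.isNilpotent_of_ker_le_center (psi R h2) ker_central

lemma BB_class_le : Group.nilpotencyClass (BB R h2) ≤ 2 := by
  have h := Group.nilpotencyClass_le_of_ker_le_center (psi R h2) ker_central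
  have h1 : Group.nilpotencyClass (Multiplicative (R × R)) ≤ 1 := CommGroup.nilpotencyClass_le_one
  omega

/-- `1 + r v vᵀ` for a vector `v` of two ones and one zero at the place `k`. -/
def PM (k : Fin 3) (r : R) : Matrix (Fin 3) (Fin 3) R :=
  fun i j => if i = j then (if i = k then 1 else 1 + r) else (if i = k ∨ j = k then 0 else r)

/-- The element `1 + r v vᵀ` of `B`. -/
def PP (h2 : (2 : R) = 0) (k : Fin 3) (r : R) (hr : r ^ 2 = 0) : GG R h2 :=
  mk h2 (PM k r)
    (by
      rw [Matrix.det_fin_three]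
      fin_cases k
      · simp [PM]
        linear_combination r * h2
      · simp [PM]
        linear_combination r * h2
      · simp [PM]
        linear_combination r * h2)
    (by
      ext i j
      rw [Matrix.mul_apply, Fin.sum_univ_three, Matrix.one_apply]
      fin_cases k <;> fin_cases i <;> fin_cases j <;> simp [PM] <;>
        linear_combination (r + r ^ 2) * h2)
    (by
      intro i j
      fin_cases k <;> fin_cases i <;> fin_cases j <;> simp [PM])
    (by
      intro i j
      fin_cases k <;> fin_cases i <;> fin_cases j <;> simp [PM, hr] <;>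
        linear_combination r * h2 + hr)

lemma PP_mem (k : Fin 3) (r : R) (hr : r ^ 2 = 0) : PP h2 k r hr ∈ BB R h2 := by
  intro i
  show PM k r i 0 + PM k r i 1 + PM k r i 2 = 1
  fin_cases k <;> fin_cases i <;> simp [PM] <;> linear_combination r * h2

/-- If there are square zero elements with nonzero product then `B` has class exactly two. -/
lemma BB_class (r s : R) (hr : r ^ 2 = 0) (hs : s ^ 2 = 0) (hrs : r * s ≠ 0) :
    Group.nilpotencyClass (BB R h2) = 2 := by
  have hn : Group.IsNilpotent (BB R h2) := BB_nilpotent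
  refine le_antisymm BB_class_le ?_
  by_contra hlt
  have h0 : Group.nilpotencyClass (BB R h2) ≤ 1 := by omega
  rw [Group.IsNilpotent.nilpotencyClass_le_one_iff] at h0
  have h1 : (⟨PP h2 0 r hr, PP_mem 0 r hr⟩ : BB R h2) * ⟨PP h2 1 s hs, PP_mem 1 s hs⟩ =
      ⟨PP h2 1 s hs, PP_mem 1 s hs⟩ * ⟨PP h2 0 r hr, PP_mem 0 r hr⟩ := h0.is_comm.comm _ _
  have h3 : e (PP h2 0 r hr * PP h2 1 s hs) 0 1 = e (PP h2 1 s hs * PP h2 0 r hr) 0 1 := by
    rw [show PP h2 0 r hr * PP h2 1 s hs = PP h2 1 s hs * PP h2 0 r hr from congrArg Subtype.val h1]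
  rw [e_mul, e_mul] at h3
  have h4 : PM 0 r 0 0 * PM 1 s 0 1 + PM 0 r 0 1 * PM 1 s 1 1 + PM 0 r 0 2 * PM 1 s 2 1 =
    PM 1 s 0 0 * PM 0 r 0 1 + PM 1 s 0 1 * PM 0 r 1 1 + PM 1 s 0 2 * PM 0 r 2 1 := h3
  apply hrs
  simp [PM] at h4
  linear_combination -h4

/-! ### The derived series -/

/-- The matrix `1 + r (E i j + E j i)` where `{i, j, k} = {0, 1, 2}`. -/
def SM (k : Fin 3) (r : R) : Matrix (Fin 3) (Fin 3) R :=
  fun i j => if i = j then 1 else (if i = k ∨ j = k then 0 else r)

/-- The element `1 + r (E i j + E j i)` of `G`. -/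
def SS (h2 : (2 : R) = 0) (k : Fin 3) (r : R) (hr : r ^ 2 = 0) : GG R h2 :=
  mk h2 (SM k r)
    (by
      rw [Matrix.det_fin_three]
      fin_cases k
      · simp [SM]
        linear_combination hr
      · simp [SM]
        linear_combination hr
      · simp [SM]
        linear_combination hr)
    (by
      ext i j
      rw [Matrix.mul_apply, Fin.sum_univ_three, Matrix.one_apply]
      fin_cases k <;> fin_cases i <;> fin_cases j <;> simp [SM] <;>
        first
          | linear_combination r * h2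
          | linear_combination hr)
    (by
      intro i j
      fin_cases k <;> fin_cases i <;> fin_cases j <;> simp [SM])
    (by
      intro i j
      fin_cases k <;> fin_cases i <;> fin_cases j <;> simp [SM, hr])

lemma e_SS (k : Fin 3) (r : R) (hr : r ^ 2 = 0) (i j : Fin 3) : e (SS h2 k r hr) i j = SM k r i j := rfl

lemma SS_comm (k : Fin 3) (r s : R) (hr : r ^ 2 = 0) (hs : s ^ 2 = 0) (hrs : (r * s) ^ 2 = 0) :
    SS h2 (k + 1) r hr * SS h2 (k + 2) s hs * (SS h2 (k + 1) r hr)⁻¹ * (SS h2 (k + 2) s hs)⁻¹ =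
      SS h2 k (r * s) hrs := by
  rw [mul_inv_eq_iff_eq_mul, mul_inv_eq_iff_eq_mul, mul_assoc]
  refine e_ext fun i j => ?_
  simp only [e_mul, e_SS]
  fin_cases k <;> fin_cases i <;> fin_cases j <;> simp [SM] <;> ring_nf <;> simp [hr, hs, h2]

lemma list_sq : ∀ (l : List R), l ≠ [] → (∀ x ∈ l, x ^ 2 = 0) → l.prod ^ 2 = 0
  | [], h, _ => absurd rfl h
  | a :: l, _, h => by
    rw [List.prod_cons, mul_pow, h a (List.mem_cons_self), zero_mul]

lemma SS_mem (k : ℕ) : ∀ (l : List R), l.length = 2 ^ k → (∀ x ∈ l, x ^ 2 = 0) →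
    ∀ (i : Fin 3) (hr : l.prod ^ 2 = 0), SS h2 i l.prod hr ∈ derivedSeries (GG R h2) k := by
  induction k with
  | zero =>
    intro l _ _ i hr
    rw [derivedSeries_zero]
    exact Subgroup.mem_top _
  | succ k ih =>
    intro l hl hsq i hr
    have hlen : 2 ^ (k + 1) = 2 ^ k + 2 ^ k := by ring
    have l1 : (l.take (2 ^ k)).length = 2 ^ k := by rw [List.length_take]; omega
    have l2 : (l.drop (2 ^ k)).length = 2 ^ k := by rw [List.length_drop]; omega
    have hpos : 0 < 2 ^ k := by positivity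
    have q1 : ∀ x ∈ l.take (2 ^ k), x ^ 2 = 0 := fun x hx => hsq x (List.mem_of_mem_take hx)
    have q2 : ∀ x ∈ l.drop (2 ^ k), x ^ 2 = 0 := fun x hx => hsq x (List.mem_of_mem_drop hx)
    have n1 : l.take (2 ^ k) ≠ [] := by
      intro h0
      rw [h0, List.length_nil] at l1
      omega
    have n2 : l.drop (2 ^ k) ≠ [] := by
      intro h0
      rw [h0, List.length_nil] at l2
      omega
    have s1 := list_sq _ n1 q1
    have s2 := list_sq _ n2 q2
    have hp : l.prod = (l.take (2 ^ k)).prod * (l.drop (2 ^ k)).prod := by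
      rw [← List.prod_append, List.take_append_drop]
    have hs : ((l.take (2 ^ k)).prod * (l.drop (2 ^ k)).prod) ^ 2 = 0 := by rw [← hp]; exact hr
    have hE : SS h2 i l.prod hr = SS h2 i ((l.take (2 ^ k)).prod * (l.drop (2 ^ k)).prod) hs := by
      refine e_ext fun a b => ?_
      rw [e_SS, e_SS, hp]
    rw [hE, ← SS_comm i _ _ s1 s2 hs, derivedSeries_succ]
    exact Subgroup.commutator_mem_commutator (ih _ l1 q1 _ s1) (ih _ l2 q2 _ s2)

lemma derived_ne_bot (k : ℕ) (l : List R) (hl : l.length = 2 ^ k) (hsq : ∀ x ∈ l, x ^ 2 = 0)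
    (h0 : l.prod ≠ 0) : derivedSeries (GG R h2) k ≠ ⊥ := by
  intro hbot
  have hne : l ≠ [] := by
    intro h
    rw [h, List.length_nil] at hl
    have : 0 < 2 ^ k := by positivity
    omega
  have h1 := SS_mem (h2 := h2) k l hl hsq 0 (list_sq l hne hsq)
  rw [hbot, Subgroup.mem_bot] at h1
  have h3 : e (SS h2 0 l.prod (list_sq l hne hsq)) 1 2 = e (1 : GG R h2) 1 2 := by rw [h1]
  rw [e_one, e_SS] at h3
  apply h0
  simpa [SM] using h3

/-! ### `G` is a `2`-group -/

lemma pow_mem_ideal (I : Ideal R) (M : Matrix (Fin 3) (Fin 3) R) (hM : ∀ i j, M i j ∈ I) (n : ℕ) :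
    ∀ i j, (M ^ n) i j ∈ I ^ n := by
  induction n with
  | zero =>
    intro i j
    rw [pow_zero, pow_zero, Ideal.one_eq_top]
    exact Submodule.mem_top
  | succ n ih =>
    intro i j
    rw [pow_succ, pow_succ, Matrix.mul_apply]
    exact Ideal.sum_mem _ fun l _ => Ideal.mul_mem_mul (ih i l) (hM l j)

lemma one_add_pow_two (h2 : (2 : R) = 0) (M : Matrix (Fin 3) (Fin 3) R) (k : ℕ) :
    (1 + M) ^ 2 ^ k = 1 + M ^ 2 ^ k := by
  induction k with
  | zero => simp
  | succ k ih =>
    rw [pow_succ 2 k, pow_mul, ih, pow_mul]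
    have h : (1 + M ^ 2 ^ k) ^ 2 = 1 + (2 : R) • M ^ 2 ^ k + (M ^ 2 ^ k) ^ 2 := by
      rw [two_smul]
      noncomm_ring
    rw [h, h2, zero_smul, add_zero]

lemma isPGroup [Finite R] : IsPGroup 2 (GG R h2) := by
  intro x
  obtain ⟨n, hn⟩ := IsNoetherianRing.isNilpotent_nilradical R
  have hm : ∀ i j, (x.1.1 - 1) i j ∈ nilradical R := by
    intro i j
    rw [mem_nilradical]
    refine ⟨2, ?_⟩
    rw [Matrix.sub_apply, Matrix.one_apply]
    have h := e_sq x i j
    unfold e at h
    split_ifs at h ⊢ with hij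
    · linear_combination h + (1 - x.1.1 i j) * h2
    · linear_combination h
  have h0 : (x.1.1 - 1) ^ 2 ^ n = 0 := by
    ext i j
    have h1 := pow_mem_ideal (nilradical R) (x.1.1 - 1) hm (2 ^ n) i j
    have h3 : nilradical R ^ 2 ^ n ≤ nilradical R ^ n := Ideal.pow_le_pow_right n.lt_two_pow_self.le
    have h4 := h3 h1
    rw [hn] at h4
    exact h4
  refine ⟨n, Subtype.ext (Subtype.ext ?_)⟩
  have h5 : (x ^ 2 ^ n).1.1 = x.1.1 ^ 2 ^ n := by
    rw [Subgroup.coe_pow]
    exact Matrix.SpecialLinearGroup.coe_pow x.1 (2 ^ n)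
  rw [h5]
  have h6 : x.1.1 = 1 + (x.1.1 - 1) := by abel
  rw [h6, one_add_pow_two h2, h0, add_zero]
  rfl

end Construction

/-- Finite rings of characteristic two with many square zero elements with nonzero product. -/
lemma exists_ring (n : ℕ) : ∃ (R : Type) (_ : CommRing R) (_ : Finite R), (2 : R) = 0 ∧
    ∃ l : List R, l.length = n ∧ (∀ x ∈ l, x ^ 2 = 0) ∧ l.prod ≠ 0 := by
  induction n with
  | zero =>
    refine ⟨ZMod 2, inferInstance, inferInstance, by decide, [], rfl, ?_, ?_⟩
    · intro x hx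
      exact absurd hx (List.not_mem_nil)
    · rw [List.prod_nil]
      exact one_ne_zero
  | succ n ih =>
    obtain ⟨R, iR, iF, h2, l, hl, hsq, h0⟩ := ih
    refine ⟨DualNumber R, inferInstance, ?_, ?_, DualNumber.eps :: l.map (algebraMap R (DualNumber R)), ?_,
      ?_, ?_⟩
    · exact (inferInstance : Finite (R × R))
    · have h : (2 : DualNumber R) = algebraMap R (DualNumber R) 2 := by rw [map_ofNat]
      rw [h, h2, map_zero]
    · rw [List.length_cons, List.length_map, hl]
    · intro x hx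
      rw [List.mem_cons] at hx
      rcases hx with rfl | hx
      · rw [pow_two, DualNumber.eps_mul_eps]
      · rw [List.mem_map] at hx
        obtain ⟨y, hy, rfl⟩ := hx
        rw [← map_pow, hsq y hy, map_zero]
    · rw [List.prod_cons, ← map_list_prod]
      intro h
      apply h0
      have h1 := congrArg TrivSqZeroExt.snd h
      have h3 : algebraMap R (DualNumber R) l.prod = TrivSqZeroExt.inl l.prod := rfl
      rw [DualNumber.snd_mul, h3, TrivSqZeroExt.snd_inl, TrivSqZeroExt.fst_inl, mul_zero, zero_add,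
        DualNumber.snd_eps, one_mul, TrivSqZeroExt.snd_zero] at h1
      exact h1

/-- For every `n` there is a finite `2`-group `G = A B` with `A` abelian, `B` nilpotent of class two and
`G` of derived length greater than `n`. In particular there is no function `f` such that every finite
group `G = A B` with `A`, `B` nilpotent of classes `α`, `β` has derived length at most `f α β`. -/
theorem result :
    (∀ n : ℕ, ∃ (G : Type) (_ : Group G) (_ : Finite G) (A B : Subgroup G),
      IsPGroup 2 G ∧ (∀ g : G, ∃ a ∈ A, ∃ b ∈ B, g = a * b) ∧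
      Group.IsNilpotent A ∧ Group.nilpotencyClass A = 1 ∧
      Group.IsNilpotent B ∧ Group.nilpotencyClass B = 2 ∧
      derivedSeries G n ≠ ⊥) ∧
    ¬ ∃ f : ℕ → ℕ → ℕ, ∀ (G : Type) [Group G] [Finite G] (A B : Subgroup G),
      Group.IsNilpotent A → Group.IsNilpotent B → (∀ g : G, ∃ a ∈ A, ∃ b ∈ B, g = a * b) →
      derivedSeries G (f (Group.nilpotencyClass A) (Group.nilpotencyClass B)) = ⊥ := by
  have key : ∀ n : ℕ, ∃ (G : Type) (_ : Group G) (_ : Finite G) (A B : Subgroup G),
      IsPGroup 2 G ∧ (∀ g : G, ∃ a ∈ A, ∃ b ∈ B, g = a * b) ∧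
      Group.IsNilpotent A ∧ Group.nilpotencyClass A = 1 ∧
      Group.IsNilpotent B ∧ Group.nilpotencyClass B = 2 ∧
      derivedSeries G n ≠ ⊥ := by
    intro n
    obtain ⟨R, iR, iF, h2, l, hl, hsq, h0⟩ := exists_ring (2 ^ (n + 1))
    have hlen : 2 ^ (n + 1) = 2 ^ n + 2 ^ n := by ring
    have l1 : (l.take (2 ^ n)).length = 2 ^ n := by rw [List.length_take]; omega
    have l2 : (l.drop (2 ^ n)).length = 2 ^ n := by rw [List.length_drop]; omega
    have hpos : 0 < 2 ^ n := by positivity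
    have q1 : ∀ x ∈ l.take (2 ^ n), x ^ 2 = 0 := fun x hx => hsq x (List.mem_of_mem_take hx)
    have q2 : ∀ x ∈ l.drop (2 ^ n), x ^ 2 = 0 := fun x hx => hsq x (List.mem_of_mem_drop hx)
    have n1 : l.take (2 ^ n) ≠ [] := by
      intro h
      rw [h, List.length_nil] at l1
      omega
    have n2 : l.drop (2 ^ n) ≠ [] := by
      intro h
      rw [h, List.length_nil] at l2
      omega
    have s1 := list_sq _ n1 q1
    have s2 := list_sq _ n2 q2
    have hp : l.prod = (l.take (2 ^ n)).prod * (l.drop (2 ^ n)).prod := by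
      rw [← List.prod_append, List.take_append_drop]
    have hrs : (l.take (2 ^ n)).prod * (l.drop (2 ^ n)).prod ≠ 0 := by rw [← hp]; exact h0
    refine ⟨GG R h2, inferInstance, inferInstance, AA R h2, BB R h2, isPGroup, factorised,
      AA_nilpotent, AA_class _ s1 (left_ne_zero_of_mul hrs), BB_nilpotent, BB_class _ _ s1 s2 hrs, ?_⟩
    exact derived_ne_bot n _ l1 q1 (left_ne_zero_of_mul hrs)
  refine ⟨key, ?_⟩
  rintro ⟨f, hf⟩
  obtain ⟨G, iG, iF, A, B, _, hAB, hA, cA, hB, cB, hne⟩ := key (f 1 2)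
  have h := hf G A B hA hB hAB
  rw [cA, cB] at h
  exact hne h

end Pool.Agent.Results.MP_640be2_al.UnboundedDerivedLength
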